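import Pool.Agent.Helper96.ME.Lib

set_option autoImplicit false

namespace Pool.Agent.Helper96.ME

open Pool.Agent.Helper96.MP
open scoped MatrixGroups

/-- left multiplication by a matrix of `Γ₀(Q)` which is the identity modulo `M` -/
theorem pwx_delta {M Q : ℕ} {C : ℤ → ℤ → ℝ} (hM : 1 ≤ M) (hQM : Nat.Coprime Q M)
    (hE : EqC (Q * M ^ 2) C) (d : SL(2, ℤ)) (hQ : (Q : ℤ) ∣ d 1 0) (hd : rd M d = 1) (x y : ℤ)
    (hxy : x ≠ 0 ∨ y ≠ 0) :
    C (d 0 0 * x + d 0 1 * y) (M * (d 1 0 * x + d 1 1 * y)) =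
      C x (M * y) + (C (d 0 0) (M * d 1 0) - C 1 0) := by
  have h01 : (M : ℤ) ∣ d 0 1 := by
    have h := congrArg (fun g : SL(2, ZMod M) => g 0 1) hd
    simp only [Lib.rd_apply, Lib.one01] at h
    exact (ZMod.intCast_zmod_eq_zero_iff_dvd _ _).1 h
  have h10 : (M : ℤ) ∣ d 1 0 := by
    have h := congrArg (fun g : SL(2, ZMod M) => g 1 0) hd
    simp only [Lib.rd_apply, Lib.one10] at h
    exact (ZMod.intCast_zmod_eq_zero_iff_dvd _ _).1 h
  obtain ⟨e, he⟩ := h01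
  have hcop : IsCoprime (Q : ℤ) (M : ℤ) := Nat.isCoprime_iff_coprime.2 hQM
  obtain ⟨f, hf⟩ := hcop.mul_dvd hQ h10
  have hdet := Lib.det1 d
  have hG : G0 (Q * M ^ 2) (d 0 0) e (M * d 1 0) (d 1 1) := by
    refine ⟨?_, f, ?_⟩
    · rw [he] at hdet
      linear_combination hdet
    · rw [hf]; push_cast; ring
  have hxy' : x ≠ 0 ∨ (M : ℤ) * y ≠ 0 := by
    rcases hxy with h | h
    · exact Or.inl h
    · refine Or.inr (mul_ne_zero ?_ h)
      exact_mod_cast (by omega : M ≠ 0)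
  have h := hE _ _ _ _ hG x (M * y) hxy'
  have e1 : d 0 0 * x + d 0 1 * y = d 0 0 * x + e * (M * y) := by rw [he]; ring
  have e2 : (M : ℤ) * (d 1 0 * x + d 1 1 * y) = M * d 1 0 * x + d 1 1 * (M * y) := by ring
  rw [e1, e2, h]

/-- the right side of `PW` only depends on the reduction and the class -/
theorem pwx_eq (hCOS : ST_COS) {M Q : ℕ} {C : ℤ → ℤ → ℝ} (hM : 1 ≤ M) (hQ : 1 ≤ Q)
    (hQM : Nat.Coprime Q M) (hE : EqC (Q * M ^ 2) C) (y y' : SL(2, ℤ)) (h1 : rd M y = rd M y')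
    (h2 : cls Q y = cls Q y') :
    C (y' 0 0) (M * y' 1 0) - C (y' 0 1) (M * y' 1 1) =
      C (y 0 0) (M * y 1 0) - C (y 0 1) (M * y 1 1) := by
  have hd1 : (Q : ℤ) ∣ (y' * y⁻¹) 1 0 := Lib.cls_eq hCOS Q hQ y y' h2
  have hd2 : rd M (y' * y⁻¹) = 1 := by
    rw [Lib.rd_mul, Lib.rd_inv, h1, mul_inv_cancel]
  have hy : y' = (y' * y⁻¹) * y := by group
  set d := y' * y⁻¹ with hdd
  have hdet := Lib.det1 y
  have n1 : y 0 0 ≠ 0 ∨ y 1 0 ≠ 0 := by
    by_contra hcon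
    push Not at hcon
    rw [hcon.1, hcon.2] at hdet
    simp at hdet
  have n2 : y 0 1 ≠ 0 ∨ y 1 1 ≠ 0 := by
    by_contra hcon
    push Not at hcon
    rw [hcon.1, hcon.2] at hdet
    simp at hdet
  have k1 := pwx_delta hM hQM hE d hd1 hd2 (y 0 0) (y 1 0) n1
  have k2 := pwx_delta hM hQM hE d hd1 hd2 (y 0 1) (y 1 1) n2
  rw [← Lib.mul00, ← Lib.mul10, ← hy] at k1
  rw [← Lib.mul01, ← Lib.mul11, ← hy] at k2
  rw [k1, k2]
  ring

theorem st_PWX (hCOS : ST_COS) : ST_PWX := by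
  classical
  intro M Q C hM hQ hQM _ hE
  refine ⟨fun g z => if h : ∃ y : SL(2, ℤ), rd M y = g ∧ cls Q y = z then
    C ((Classical.choose h) 0 0) (M * (Classical.choose h) 1 0) -
      C ((Classical.choose h) 0 1) (M * (Classical.choose h) 1 1) else 0, ?_⟩
  intro y
  have h : ∃ y' : SL(2, ℤ), rd M y' = rd M y ∧ cls Q y' = cls Q y := ⟨y, rfl, rfl⟩
  simp only [dif_pos h]
  have hs := Classical.choose_spec h
  exact pwx_eq hCOS hM hQ hQM hE y (Classical.choose h) hs.1.symm hs.2.symm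

end Pool.Agent.Helper96.ME
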